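import Pool.Agent.H37.CSZ.Stmts

/-!
# Row ZZR of board `csz`: the relations of the coordinates of the Deligne-Lusztig curve of `Sz(q)`
-/

set_option autoImplicit false

namespace Pool.CND

/-- the alternating form of `J4` in characteristic 2 -/
def zB {Ω : Type} [Field Ω] (a b : Fin 4 → Ω) : Ω :=
  a 0 * b 3 + a 3 * b 0 + a 1 * b 2 + a 2 * b 1

theorem zB_eq {Ω : Type} [Field Ω] [CharP Ω 2] (a b : Fin 4 → Ω) :
    zB a b = a 0 * b 3 - a 3 * b 0 + a 1 * b 2 - a 2 * b 1 := by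
  simp only [zB, CharTwo.sub_eq_add]

theorem zB_symm {Ω : Type} [Field Ω] (a b : Fin 4 → Ω) : zB a b = zB b a := by
  simp only [zB]
  ring

theorem zzr_five {Ω : Type} [Field Ω] [CharP Ω 2] (Y a b c d : Fin 4 → Ω) (i : Fin 4) :
    Y i * (zB a b * zB c d + zB a c * zB b d + zB a d * zB b c) =
      zB Y a * (zB b c * d i + zB b d * c i + b i * zB c d) +
      zB Y b * (zB a c * d i + zB a d * c i + a i * zB c d) +
      zB Y c * (zB a b * d i + zB a d * b i + a i * zB b d) +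
      zB Y d * (zB a b * c i + zB a c * b i + a i * zB b c) := by
  have key : Y i * (zB a b * zB c d - zB a c * zB b d + zB a d * zB b c) =
      -zB Y a * (zB b c * d i - zB b d * c i + b i * zB c d) +
      zB Y b * (zB a c * d i - zB a d * c i + a i * zB c d) -
      zB Y c * (zB a b * d i - zB a d * b i + a i * zB b d) +
      zB Y d * (zB a b * c i - zB a c * b i + a i * zB b c) := by
    simp only [zB_eq]
    fin_cases i <;> simp only [Fin.zero_eta, Fin.mk_one, Fin.reduceFinMk] <;> ring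
  simpa only [CharTwo.sub_eq_add, CharTwo.neg_eq] using key

theorem zzr_det {Ω : Type} [Field Ω] [CharP Ω 2] (a b c d : Fin 4 → Ω) :
    (a 0 * b 1 + a 1 * b 0) * (c 2 * d 3 + c 3 * d 2) +
      (a 0 * b 2 + a 2 * b 0) * (c 1 * d 3 + c 3 * d 1) +
      (a 0 * b 3 + a 3 * b 0) * (c 1 * d 2 + c 2 * d 1) +
      (a 1 * b 2 + a 2 * b 1) * (c 0 * d 3 + c 3 * d 0) +
      (a 1 * b 3 + a 3 * b 1) * (c 0 * d 2 + c 2 * d 0) +
      (a 2 * b 3 + a 3 * b 2) * (c 0 * d 1 + c 1 * d 0) =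
    zB a b * zB c d + zB a c * zB b d + zB a d * zB b c := by
  have key : (a 0 * b 1 - a 1 * b 0) * (c 2 * d 3 - c 3 * d 2) -
      (a 0 * b 2 - a 2 * b 0) * (c 1 * d 3 - c 3 * d 1) +
      (a 0 * b 3 - a 3 * b 0) * (c 1 * d 2 - c 2 * d 1) +
      (a 1 * b 2 - a 2 * b 1) * (c 0 * d 3 - c 3 * d 0) -
      (a 1 * b 3 - a 3 * b 1) * (c 0 * d 2 - c 2 * d 0) +
      (a 2 * b 3 - a 3 * b 2) * (c 0 * d 1 - c 1 * d 0) =
    zB a b * zB c d - zB a c * zB b d + zB a d * zB b c := by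
    simp only [zB_eq]
    ring
  simpa only [CharTwo.sub_eq_add, CharTwo.neg_eq] using key

/-- the relation `rel` from the others -/
theorem zzr_rel {Ω : Type} [Field Ω] [CharP Ω 2] (t s r : Ω) (X : ℕ → Fin 4 → Ω)
    (F0 F3 : Fin 4 → Ω)
    (B1 : ∀ j, zB (X j) (X (j + 1)) = 0) (B2 : ∀ j, zB (X j) (X (j + 2)) = 1)
    (B30 : zB (X 0) (X 3) = t) (B31 : zB (X 1) (X 4) = s)
    (m01 : X 0 0 * X 1 1 + X 0 1 * X 1 0 = F0 0) (m02 : X 0 0 * X 1 2 + X 0 2 * X 1 0 = F0 1)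
    (m13 : X 0 1 * X 1 3 + X 0 3 * X 1 1 = F0 2) (m23 : X 0 2 * X 1 3 + X 0 3 * X 1 2 = F0 3)
    (n01 : X 3 0 * X 4 1 + X 3 1 * X 4 0 = F3 0) (n02 : X 3 0 * X 4 2 + X 3 2 * X 4 0 = F3 1)
    (n13 : X 3 1 * X 4 3 + X 3 3 * X 4 1 = F3 2) (n23 : X 3 2 * X 4 3 + X 3 3 * X 4 2 = F3 3)
    (hr : zB F0 F3 = r) (i : Fin 4) :
    X 4 i + s * X 3 i + r * X 2 i + t * X 1 i + X 0 i = 0 := by
  have h2 : (2 : Ω) = 0 := CharTwo.two_eq_zero
  have e1 := B1 0
  have e2 := B1 1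
  have e3 := B1 2
  have e4 := B1 3
  have f0 := B2 0
  have f1 := B2 1
  have f2 := B2 2
  simp only [zero_add, Nat.reduceAdd] at e1 e2 e3 e4 f0 f1 f2
  have B04 : zB (X 0) (X 4) = t * s + r := by
    have h := zzr_det (X 0) (X 1) (X 3) (X 4)
    rw [e1, B30, B31, f1, m01, m02, m13, m23, n01, n02, n13, n23] at h
    have g1 : X 0 0 * X 1 3 + X 0 3 * X 1 0 = X 0 1 * X 1 2 + X 0 2 * X 1 1 := by
      simp only [zB] at e1
      linear_combination e1 - (X 0 1 * X 1 2 + X 0 2 * X 1 1) * h2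
    have g2 : X 3 0 * X 4 3 + X 3 3 * X 4 0 = X 3 1 * X 4 2 + X 3 2 * X 4 1 := by
      simp only [zB] at e4
      linear_combination e4 - (X 3 1 * X 4 2 + X 3 2 * X 4 1) * h2
    rw [g1, g2] at h
    simp only [zB] at hr
    rw [← hr]
    linear_combination -h +
      ((X 0 1 * X 1 2 + X 0 2 * X 1 1) * (X 3 1 * X 4 2 + X 3 2 * X 4 1) - t * s) * h2
  set Y : Fin 4 → Ω := fun i => X 4 i + s * X 3 i + r * X 2 i + t * X 1 i + X 0 i with hY
  have lin : ∀ b : Fin 4 → Ω, zB Y b =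
      zB (X 4) b + s * zB (X 3) b + r * zB (X 2) b + t * zB (X 1) b + zB (X 0) b := by
    intro b
    simp only [zB, hY]
    ring
  have alt : ∀ b : Fin 4 → Ω, zB b b = 0 := by
    intro b
    simp only [zB]
    linear_combination (b 0 * b 3 + b 1 * b 2) * h2
  have y0 : zB Y (X 0) = 0 := by
    rw [lin, zB_symm (X 4), zB_symm (X 3), zB_symm (X 2), zB_symm (X 1), B04, B30, f0, e1, alt]
    linear_combination (t * s + r) * h2
  have y1 : zB Y (X 1) = 0 := by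
    rw [lin, zB_symm (X 4), zB_symm (X 3), zB_symm (X 2), B31, f1, e2, alt, e1]
    linear_combination s * h2
  have y2 : zB Y (X 2) = 0 := by
    rw [lin, zB_symm (X 4), zB_symm (X 3), f2, e3, alt, e2, f0]
    linear_combination h2
  have y3 : zB Y (X 3) = 0 := by
    rw [lin, zB_symm (X 4), e4, alt, e3, f1, B30]
    linear_combination t * h2
  have h5 := zzr_five Y (X 0) (X 1) (X 2) (X 3) i
  rw [y0, y1, y2, y3, e1, e3, f0, f1, B30, e2] at h5
  have h6 : Y i = 0 := by linear_combination h5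
  exact h6

/-- the identities for the functions `x, z, w`; `Φ`: the `f`-th power, `Q`: the `q`-th power -/
theorem zzr_alg {Ω : Type} [Field Ω] [CharP Ω 2] (Φ Q : Ω →+* Ω) (hΦ : ∀ a, Φ (Φ a) = Q a ^ 2)
    (hc : ∀ a, Q (Φ a) = Φ (Q a)) (x z w D : Ω) (hx : Q x + x = D) (hz : Q z + z = Φ x * D)
    (hw : w = x * z + Φ x * x ^ 2 + Φ z) :
    w * Q z + z * Q w = D * Φ w ∧ w * Q x + x * Q w = D * Φ z ∧
    z * Q x + x * Q z = D * (z + Φ x * x) ∧ Q w + w = D * (z + Φ x * x) ∧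
    Q (Q w) + w + x * Q (Q z) + z * Q (Q x) = Q D * Φ D * D ∧
    Q (Q (Q w)) + w + x * Q (Q (Q z)) + z * Q (Q (Q x)) =
      Q D * Φ D * D + Q (Q D) * (Φ D * D + Q (Φ D) * (D + Q D)) := by
  have h2 : (2 : Ω) = 0 := CharTwo.two_eq_zero
  have Qx : Q x = x + D := by linear_combination hx - x * h2
  have Qz : Q z = z + Φ x * D := by linear_combination hz - z * h2
  have Qxf : Q (Φ x) = Φ x + Φ D := by rw [hc, Qx, map_add]
  have Qzf : Q (Φ z) = Φ z + (x + D) ^ 2 * Φ D := by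
    rw [hc, Qz, map_add, map_mul, hΦ, Qx]
  have Qw0 : Q w = w + D * (z + Φ x * x) := by
    rw [hw, map_add, map_add, map_mul, map_mul, map_pow, Qx, Qz, Qxf, Qzf]
    linear_combination (2 * D * Φ D * x + D * x * Φ x + D ^ 2 * Φ D + D ^ 2 * Φ x +
      Φ D * x ^ 2) * h2
  have Qa : Q (z + Φ x * x) = z + Φ x * x + (x + D) * Φ D := by
    rw [map_add, map_mul, Qx, Qz, Qxf]
    linear_combination (D * Φ x) * h2
  have Pw : Φ w = Φ x * Φ z + (x + D) ^ 2 * Φ x ^ 2 + (z + Φ x * D) ^ 2 := by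
    rw [hw, map_add, map_add, map_mul, map_mul, map_pow, hΦ, hΦ, Qx, Qz]
  have Q2x : Q (Q x) = x + D + Q D := by rw [Qx, map_add, Qx]
  have Q2z : Q (Q z) = z + Φ x * D + (Φ x + Φ D) * Q D := by rw [Qz, map_add, map_mul, Qz, Qxf]
  have Q2w : Q (Q w) = w + D * (z + Φ x * x) + Q D * (z + Φ x * x + (x + D) * Φ D) := by
    rw [Qw0, map_add, map_mul, Qw0, Qa]
  have Q3x : Q (Q (Q x)) = x + D + Q D + Q (Q D) := by rw [Q2x, map_add, map_add, Qx]
  have Q3z : Q (Q (Q z)) = z + Φ x * D + (Φ x + Φ D) * Q D +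
      (Φ x + Φ D + Q (Φ D)) * Q (Q D) := by
    rw [Q2z, map_add, map_add, map_mul, map_mul, map_add, Qz, Qxf]
  have Q3w : Q (Q (Q w)) = w + D * (z + Φ x * x) + Q D * (z + Φ x * x + (x + D) * Φ D) +
      Q (Q D) * (z + Φ x * x + (x + D) * Φ D + (x + D + Q D) * Q (Φ D)) := by
    rw [Q2w, map_add, map_add, map_mul, map_mul, Qw0, Qa, map_add, Qa, map_mul, map_add, Qx]
  refine ⟨?_, ?_, ?_, ?_, ?_, ?_⟩
  · rw [Pw, Qw0, Qz, hw]
    linear_combination (D * x * Φ x * z + -1 * D ^ 2 * x * Φ x ^ 2 + -1 * D ^ 2 * Φ x * z +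
      -1 * D ^ 3 * Φ x ^ 2 + x * z ^ 2 + x ^ 2 * Φ x * z + z * Φ z) * h2
  · rw [Qw0, Qx, hw]
    linear_combination (D * x * z + D * x ^ 2 * Φ x + x * Φ z + x ^ 2 * z + x ^ 3 * Φ x) * h2
  · rw [Qx, Qz]
    linear_combination (x * z) * h2
  · rw [Qw0]
    linear_combination w * h2
  · rw [Q2w, Q2z, Q2x, hw]
    linear_combination (D * x * Φ x + D * z + Q D * Φ D * x + Q D * x * Φ x + Q D * z +
      2 * x * z + x ^ 2 * Φ x + Φ z) * h2
  · rw [Q3w, Q3z, Q3x, hw]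
    linear_combination (D * x * Φ x + D * z + Q D * Φ D * x + Q D * x * Φ x + Q D * z +
      Q (Q D) * Φ D * x + Q (Q D) * Q (Φ D) * x + Q (Q D) * x * Φ x + Q (Q D) * z +
      2 * x * z + x ^ 2 * Φ x + Φ z) * h2

theorem zB_map {Ω : Type} [Field Ω] (g : Ω →+* Ω) (a b : Fin 4 → Ω) :
    zB (fun i => g (a i)) (fun i => g (b i)) = g (zB a b) := by
  simp only [zB, map_add, map_mul]

theorem zzr_rel2 {Ω : Type} [Field Ω] [CharP Ω 2] (m k q f : ℕ) (hq : q = 2 ^ m)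
    (hf : f = 2 ^ k) (t : Ω) (V : Fin 4 → Ω) (h1 : zB V (fun i => V i ^ q) = 0)
    (h2 : zB V (fun i => V i ^ (q ^ 2)) = 1) (h3 : zB V (fun i => V i ^ (q ^ 3)) = t)
    (p01 : V 0 * V 1 ^ q + V 1 * V 0 ^ q = V 0 ^ f) (p02 : V 0 * V 2 ^ q + V 2 * V 0 ^ q = V 1 ^ f)
    (p13 : V 1 * V 3 ^ q + V 3 * V 1 ^ q = V 2 ^ f) (p23 : V 2 * V 3 ^ q + V 3 * V 2 ^ q = V 3 ^ f)
    (i : Fin 4) :
    V i ^ (q ^ 4) + t ^ q * V i ^ (q ^ 3) + t ^ f * V i ^ (q ^ 2) + t * V i ^ q + V i = 0 := by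
  have : Fact (Nat.Prime 2) := ⟨Nat.prime_two⟩
  have : ExpChar Ω 2 := ExpChar.prime Nat.prime_two
  let Fr : ℕ → Ω →+* Ω := fun j => iterateFrobenius Ω 2 (m * j)
  have hFr : ∀ (j : ℕ) (z : Ω), Fr j z = z ^ (q ^ j) := by
    intro j z
    show iterateFrobenius Ω 2 (m * j) z = _
    rw [iterateFrobenius_def, pow_mul, ← hq]
  let Φ : Ω →+* Ω := iterateFrobenius Ω 2 k
  have hΦ : ∀ z : Ω, Φ z = z ^ f := by
    intro z
    show iterateFrobenius Ω 2 k z = _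
    rw [iterateFrobenius_def, ← hf]
  have hpp : ∀ (i j : ℕ) (z : Ω), (z ^ (q ^ i)) ^ (q ^ j) = z ^ (q ^ (j + i)) := by
    intro i j z
    rw [← pow_mul, ← pow_add, add_comm]
  have hp1 : ∀ (j : ℕ) (z : Ω), (z ^ q) ^ (q ^ j) = z ^ (q ^ (j + 1)) := fun j z => by
    rw [← pow_mul, ← pow_succ']
  have mp : ∀ (j : ℕ) (a b c d r : Ω), a * b ^ q + c * d ^ q = r ^ f →
      a ^ (q ^ j) * b ^ (q ^ (j + 1)) + c ^ (q ^ j) * d ^ (q ^ (j + 1)) = (r ^ (q ^ j)) ^ f := by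
    intro j a b c d r h
    have h7 := congrArg (Fr j) h
    rw [map_add, map_mul, map_mul] at h7
    simp only [hFr, hp1] at h7
    rw [h7, ← pow_mul, ← pow_mul, mul_comm]
  have key := zzr_rel t (t ^ q) (t ^ f) (fun j i => V i ^ (q ^ j)) (fun i => V i ^ f)
    (fun i => (V i ^ (q ^ 3)) ^ f) ?_ ?_ ?_ ?_ ?_ ?_ ?_ ?_ (mp 3 _ _ _ _ _ p01)
    (mp 3 _ _ _ _ _ p02) (mp 3 _ _ _ _ _ p13) (mp 3 _ _ _ _ _ p23) ?_ i
  · simp only [pow_zero, pow_one] at key
    exact key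
  · intro j
    have h7 := zB_map (Fr j) V (fun i => V i ^ q)
    simp only [hFr, hp1] at h7
    show zB (fun i => V i ^ (q ^ j)) (fun i => V i ^ (q ^ (j + 1))) = 0
    rw [h7, h1, zero_pow]
    rw [hq]
    positivity
  · intro j
    have h7 := zB_map (Fr j) V (fun i => V i ^ (q ^ 2))
    simp only [hFr, hpp] at h7
    show zB (fun i => V i ^ (q ^ j)) (fun i => V i ^ (q ^ (j + 2))) = 1
    rw [h7, h2, one_pow]
  · simp only [pow_zero, pow_one]
    exact h3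
  · have h7 := zB_map (Fr 1) V (fun i => V i ^ (q ^ 3))
    simp only [hFr, hpp] at h7
    show zB (fun i => V i ^ (q ^ 1)) (fun i => V i ^ (q ^ 4)) = t ^ q
    rw [h7, h3, pow_one]
  · simp only [pow_zero, pow_one]
    exact p01
  · simp only [pow_zero, pow_one]
    exact p02
  · simp only [pow_zero, pow_one]
    exact p13
  · simp only [pow_zero, pow_one]
    exact p23
  · have h7 := zB_map Φ V (fun i => V i ^ (q ^ 3))
    simp only [hΦ] at h7
    rw [h7, h3]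

theorem zzr_thm : S_ZZR := by
  intro n q f e Ω _ x z w u t hch hn hf hq he hu hx hz hw ht
  have : Fact (Nat.Prime 2) := ⟨Nat.prime_two⟩
  have : ExpChar Ω 2 := ExpChar.prime Nat.prime_two
  have h2 : (2 : Ω) = 0 := CharTwo.two_eq_zero
  let Q : Ω →+* Ω := iterateFrobenius Ω 2 (2 * n + 1)
  have hQ : ∀ z : Ω, Q z = z ^ q := by
    intro z
    show iterateFrobenius Ω 2 (2 * n + 1) z = _
    rw [iterateFrobenius_def, ← hq]
  let Φ : Ω →+* Ω := iterateFrobenius Ω 2 (n + 1)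
  have hΦ : ∀ z : Ω, Φ z = z ^ f := by
    intro z
    show iterateFrobenius Ω 2 (n + 1) z = _
    rw [iterateFrobenius_def, ← hf]
  have hff : f * f = q * 2 := by
    rw [hf, hq, ← pow_add, ← pow_succ]
    congr 1
    omega
  obtain ⟨D, hD⟩ : ∃ D : Ω, D = x ^ q + x := ⟨_, rfl⟩
  have hue : u ^ e = D := by rw [hD, hx]
  obtain ⟨A4, A3, A2, A1, A5, A6⟩ := zzr_alg Φ Q
    (fun a => by rw [hΦ, hΦ, hQ, ← pow_mul, ← pow_mul, hff])
    (fun a => by rw [hQ, hΦ, hΦ, hQ, ← pow_mul, ← pow_mul, mul_comm]) x z w D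
    (by rw [hQ, hD]) (by rw [hQ, hΦ, hz, hue]) (by rw [hw, hΦ, hΦ, ← pow_add])
  have q2 : ∀ a : Ω, (a ^ q) ^ q = a ^ (q ^ 2) := fun a => by rw [← pow_mul, pow_two]
  have q3 : ∀ a : Ω, (a ^ (q ^ 2)) ^ q = a ^ (q ^ 3) := fun a => by
    rw [← pow_mul, ← pow_succ]
  simp only [hQ, hΦ, q2, q3] at A1 A2 A3 A4 A5 A6
  obtain ⟨v, hv⟩ : ∃ v : Ω, v = u⁻¹ := ⟨_, rfl⟩
  have hv0 : v ≠ 0 := by rw [hv]; exact inv_ne_zero hu
  have huv : u * v = 1 := by rw [hv]; exact mul_inv_cancel₀ hu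
  have hve : v ^ e * D = 1 := by
    rw [← hue, ← mul_pow, mul_comm, huv, one_pow]
  have K1 : D * (v * v ^ q) = v ^ f := by
    have e1 : v * v ^ q = v ^ e * v ^ f := by
      rw [← pow_succ', ← pow_add, he]
    rw [e1]
    linear_combination v ^ f * hve
  have hee : e * (q + f + 1) = q ^ 2 + 1 := by
    have h8 : (e + f) * (q + f + 1) = (q + 1) * (q + f + 1) := by rw [he]
    nlinarith [h8, hff]
  have K2 : D ^ (q + f + 1) = u ^ (q ^ 2 + 1) := by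
    rw [← hue, ← pow_mul, hee]
  have K3 : D ^ (q + f + 1) * (v * v ^ (q ^ 2)) = 1 := by
    rw [K2, ← pow_succ', ← mul_pow, huv, one_pow]
  have hDD : D ^ q * D ^ f * D = D ^ (q + f + 1) := by rw [pow_succ, pow_add]
  rw [hDD] at A5
  have hX : (![w / u, z / u, x / u, 1 / u] : Fin 4 → Ω) = ![w * v, z * v, x * v, v] := by
    rw [div_eq_mul_inv, div_eq_mul_inv, div_eq_mul_inv, one_div, ← hv]
  rw [hX]
  have ht' : t = (w ^ (q ^ 3) + w + x * z ^ (q ^ 3) + z * x ^ (q ^ 3)) * (v * v ^ (q ^ 3)) := by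
    rw [ht, one_div, div_eq_mul_inv, div_eq_mul_inv, div_eq_mul_inv, ← hv, mul_pow, mul_pow,
      mul_pow]
    ring
  have h1 : w * v * v ^ q + v * (w * v) ^ q + z * v * (x * v) ^ q + x * v * (z * v) ^ q = 0 := by
    rw [mul_pow, mul_pow, mul_pow]
    linear_combination (v * v ^ q) * A1 + (v * v ^ q) * A2 +
      (v * v ^ q * (D * (z + x ^ f * x))) * h2
  have h2' : w * v * v ^ (q ^ 2) + v * (w * v) ^ (q ^ 2) + z * v * (x * v) ^ (q ^ 2) +
      x * v * (z * v) ^ (q ^ 2) = 1 := by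
    rw [mul_pow, mul_pow, mul_pow]
    linear_combination (v * v ^ (q ^ 2)) * A5 + K3
  have h3 : w * v * v ^ (q ^ 3) + v * (w * v) ^ (q ^ 3) + z * v * (x * v) ^ (q ^ 3) +
      x * v * (z * v) ^ (q ^ 3) = t := by
    rw [ht', mul_pow, mul_pow, mul_pow]
    ring
  have p01 : w * v * (z * v) ^ q + z * v * (w * v) ^ q = (w * v) ^ f := by
    rw [mul_pow, mul_pow, mul_pow]
    linear_combination (v * v ^ q) * A4 + w ^ f * K1
  have p02 : w * v * (x * v) ^ q + x * v * (w * v) ^ q = (z * v) ^ f := by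
    rw [mul_pow, mul_pow, mul_pow]
    linear_combination (v * v ^ q) * A3 + z ^ f * K1
  have p13 : z * v * v ^ q + v * (z * v) ^ q = (x * v) ^ f := by
    rw [mul_pow, mul_pow]
    rw [hue] at hz
    linear_combination (v * v ^ q) * hz + x ^ f * K1
  have p23 : x * v * v ^ q + v * (x * v) ^ q = v ^ f := by
    rw [mul_pow]
    linear_combination K1 - (v * v ^ q) * hD
  refine ⟨⟨h1, p01, p02, p13, p23, h2', h3, ?_, hv0⟩, ?_⟩
  · exact zzr_rel2 (2 * n + 1) (n + 1) q f hq hf t ![w * v, z * v, x * v, v] h1 h2' h3 p01 p02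
      p13 p23
  · have hq1 : 1 ≤ q := by rw [hq]; exact Nat.one_le_two_pow
    have l1 : q ^ 2 ≤ q ^ 3 := Nat.pow_le_pow_right hq1 (by norm_num)
    have l2 : q ≤ q ^ 2 := by
      calc q = q ^ 1 := (pow_one q).symm
        _ ≤ q ^ 2 := Nat.pow_le_pow_right hq1 (by norm_num)
    have l3 : f ≤ f * q := Nat.le_mul_of_pos_right f hq1
    have hN : w ^ (q ^ 3) + w + x * z ^ (q ^ 3) + z * x ^ (q ^ 3) =
        D ^ (q + f + 1) * (1 + D ^ (q ^ 2 - q) + D ^ (q ^ 2 + f * q - (f + q)) +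
          D ^ ((q + f + 1) * (q - 1))) := by
      have e1 : D ^ (q + f + 1) * D ^ (q ^ 2 - q) = D ^ (q ^ 2) * (D ^ f * D) := by
        rw [← pow_add, ← pow_succ, ← pow_add]
        congr 1
        omega
      have e2 : D ^ (q + f + 1) * D ^ (q ^ 2 + f * q - (f + q)) =
          D ^ (q ^ 2) * ((D ^ f) ^ q * D) := by
        rw [← pow_add, ← pow_mul, ← pow_succ, ← pow_add]
        congr 1
        omega
      have e3 : D ^ (q + f + 1) * D ^ ((q + f + 1) * (q - 1)) =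
          D ^ (q ^ 2) * ((D ^ f) ^ q * D ^ q) := by
        rw [← pow_add, ← pow_mul, ← pow_add, ← pow_add]
        congr 1
        obtain ⟨r, rfl⟩ : ∃ r, q = r + 1 := ⟨q - 1, by omega⟩
        simp only [Nat.add_sub_cancel]
        ring
      rw [A6, hDD]
      linear_combination -e1 - e2 - e3
    have hU : (v * v ^ (q ^ 3)) * u ^ (q ^ 3 - q ^ 2) * D ^ (q + f + 1) = 1 := by
      rw [K2, mul_assoc, ← pow_add, ← pow_succ']
      have e4 : q ^ 3 - q ^ 2 + (q ^ 2 + 1) = q ^ 3 + 1 := by omega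
      rw [e4, ← mul_pow, mul_comm v u, huv, one_pow]
    have hG1 : u ^ (e * (q ^ 2 - q)) = D ^ (q ^ 2 - q) := by rw [pow_mul, hue]
    have hG2 : u ^ (e * (q ^ 2 + f * q - (f + q))) = D ^ (q ^ 2 + f * q - (f + q)) := by
      rw [pow_mul, hue]
    have hG3 : u ^ ((q ^ 2 + 1) * (q - 1)) = D ^ ((q + f + 1) * (q - 1)) := by
      rw [pow_mul, ← K2, ← pow_mul]
    rw [hG1, hG2, hG3, ht', hN]
    linear_combination (1 + D ^ (q ^ 2 - q) + D ^ (q ^ 2 + f * q - (f + q)) +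
          D ^ ((q + f + 1) * (q - 1))) * hU

end Pool.CND
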